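import Pool.Agent.H31.ZDE.LEM

/-!
# Module RUL of project ZDE (MP_92a1a0_co): the rules O, M, L for zircons
-/

namespace Pool.Agent.H11.ZDE

open RootLat

section rul
variable {B W : Type*} [Group W] {M : CoxeterMatrix B} {cs : CoxeterSystem M W}
  {L : Type*} [AddCommGroup L] {R : RootLat L} {G : Geo cs R}

/-- lifting properties of special matchings (module LEM) -/
def RulLiftStmt (cs : CoxeterSystem M W) : Prop := ∀ (u v : W) (m : W → W), SM cs u v m → ∀ x y,
  Ic cs u v x → Ic cs u v y → Bru cs x y →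
  (cs.length x < cs.length (m x) → cs.length (m y) < cs.length y → Bru cs x (m y)) ∧
  (cs.length (m x) < cs.length x → cs.length (m y) < cs.length y → Bru cs (m x) (m y)) ∧
  (cs.length x < cs.length (m x) → cs.length y < cs.length (m y) → Bru cs (m x) (m y))

theorem rul_lift_stmt : RulLiftStmt cs := by
  intro u v m hm x y hx hy hxy
  have cu : ∀ c, Ic cs u v c → cs.length c < cs.length (m c) → Cov cs c (m c) := by
    intro c hc h
    rcases hm.cov c hc with h1 | h1
    · exact h1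
    · exact absurd h1.lt (by omega)
  have cd : ∀ c, Ic cs u v c → cs.length (m c) < cs.length c → Cov cs (m c) c := by
    intro c hc h
    rcases hm.cov c hc with h1 | h1
    · exact absurd h1.lt (by omega)
    · exact h1
  refine ⟨fun h1 h2 => (hm.lift hx hy hxy (cu x hx h1) (cd y hy h2)).2,
    fun h1 h2 => hm.lift_dd hx hy hxy (cd x hx h1) (cd y hy h2),
    fun h1 h2 => hm.lift_uu hx hy hxy (cu x hx h1) (cu y hy h2)⟩

/-! ### basic facts -/

theorem Bru.rf (x : W) : Bru cs x x := Relation.ReflTransGen.refl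

theorem Bru.tr {x y z : W} (h : Bru cs x y) (h' : Bru cs y z) : Bru cs x z :=
  Relation.ReflTransGen.trans h h'

theorem Bru.lt_of_ne {x y : W} (h : Bru cs x y) (hne : x ≠ y) : cs.length x < cs.length y :=
  h.len.resolve_left hne

theorem Geo.T_sq (G : Geo cs R) {b : L} (hb : R.Q b b = 2) : G.T b * G.T b = 1 := by
  apply G.inj
  rw [map_mul, G.ρT b hb, R.r_r hb, map_one]

theorem Geo.TT6 (G : Geo cs R) (x : W) {b : L} (hb : R.Q b b = 2) : x * G.T b * G.T b = x := by
  rw [mul_assoc, G.T_sq hb, mul_one]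

theorem Geo.T_refl (G : Geo cs R) {b : L} (hb : R.Q b b = 2) (pb : R.P b) : cs.IsReflection (G.T b) :=
  (G.refl _).mpr ⟨b, hb, pb, rfl⟩

theorem Geo.Jn.parity {x y : W} (h : G.Jn x y) : cs.length x % 2 ≠ cs.length y % 2 := by
  obtain ⟨b, hb, pb, rfl⟩ := h
  have h1 := cs.length_mul_mod_two x (G.T b)
  obtain ⟨n, hn⟩ := (G.T_refl hb pb).odd_length
  omega

theorem Geo.Jn.bru6 {x y : W} (h : G.Jn x y) (hl : cs.length x < cs.length y) : Bru cs x y := by
  obtain ⟨b, hb, pb, rfl⟩ := h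
  exact Relation.ReflTransGen.single ⟨G.T b, G.T_refl hb pb, rfl, hl⟩

theorem Geo.root (G : Geo cs R) (w : W) {b : L} (hb : R.Q b b = 2) : R.P (G.ρ w b) ∨ R.P (-(G.ρ w b)) :=
  R.P_root _ (by rw [G.iso, hb])

/-- sign of a root from the length -/
theorem Geo.neg_of_lt (G : Geo cs R) (w : W) {b : L} (hb : R.Q b b = 2) (pb : R.P b)
    (h : cs.length (w * G.T b) < cs.length w) : R.P (-(G.ρ w b)) := by
  rcases G.root w hb with h1 | h1
  · have := G.lt w b hb pb h1
    omega
  · exact h1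

theorem Geo.ρmul (G : Geo cs R) (w : W) {b : L} (hb : R.Q b b = 2) (v : L) :
    G.ρ (w * G.T b) v = G.ρ w (v - R.Q v b • b) := by
  rw [map_mul, G.ρT b hb, Module.End.mul_apply, r_apply]

theorem Geo.T_ne (G : Geo cs R) (z : W) {b c : L} (hb : R.Q b b = 2) (pb : R.P b)
    (hc : R.Q c c = 2) (pc : R.P c) (hbc : b ≠ c) : z * G.T b ≠ z * G.T c := by
  intro h
  have h1 : G.T b = G.T c := mul_left_cancel h
  have h2 : G.ρ (G.T b) b = G.ρ (G.T c) b := by rw [h1]
  rw [G.ρT b hb, G.ρT c hc, R.r_self hb, r_apply] at h2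
  have h3 : R.Q (-b) c = R.Q (b - R.Q b c • c) c := by rw [h2]
  have h4 : R.Q (-b) b = R.Q (b - R.Q b c • c) b := by rw [h2]
  rw [R.Q_neg, R.Q_sub, R.Q_smul, R.Q_comm c b, hb] at h4
  rcases R.Q_cases' hb hc pb pc hbc with h5 | h5 | h5
  · rw [h5] at h4; omega
  · rw [h5] at h4; omega
  · rw [h5] at h4; omega

/-! ### special matchings of `[u,z]` -/

namespace RUL

section sm
variable (hE : LemmaEStmt G) (hC : CovStmt G)
include hC

theorem cov_jn {x y : W} (h : Cov cs x y) : G.Jn x y := ((hC x y).mp h).1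

theorem cov_len {x y : W} (h : Cov cs x y) : cs.length y = cs.length x + 1 := ((hC x y).mp h).2

theorem sm_jn {u v : W} {m : W → W} (hm : SM cs u v m) {x : W} (hx : Ic cs u v x) :
    G.Jn x (m x) := by
  rcases hm.cov x hx with h | h
  · exact cov_jn hC h
  · exact (cov_jn hC h).symm

theorem sm_top {u z : W} {m : W → W} (hm : SM cs u z m) (huz : Bru cs u z) :
    cs.length (m z) + 1 = cs.length z := by
  have hz : Ic cs u z z := ⟨huz, Bru.rf z⟩
  have h1 := (hm.maps z hz).2
  rcases hm.cov z hz with h | h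
  · have h2 := cov_len hC h
    rcases h1.len with h3 | h3
    · rw [h3] at h2; omega
    · omega
  · exact (cov_len hC h).symm

include hE

/-- a lower neighbour `a ≠ m z` of the top `z` is matched with a lower neighbour of `m z` -/
theorem sm_low {u z : W} {m : W → W} (hm : SM cs u z m) (huz : Bru cs u z) {a : W}
    (hua : Bru cs u a) (ja : G.Jn z a) (la : cs.length a < cs.length z) (hne : m z ≠ a) :
    G.Jn (m z) (m a) ∧ cs.length (m a) < cs.length (m z) ∧ Bru cs u (m a) := by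
  have hz : Ic cs u z z := ⟨huz, Bru.rf z⟩
  have ha : Ic cs u z a := ⟨hua, ja.symm.bru6 la⟩
  have h1 : G.Jn (m z) (m a) := hE u z m hm z a hz ha ja
  have hma := hm.maps a ha
  refine ⟨h1, ?_, hma.1⟩
  have h2 := sm_top hC hm huz
  have h3 := h1.parity
  have h4 : m a ≠ z := by
    intro h
    apply hne
    rw [← h, hm.invol a ha]
  have h5 := hma.2.lt_of_ne h4
  omega

theorem r2_stmt : R2Stmt G := by
  intro u w hZ z
  induction hn : cs.length z using Nat.strong_induction_on generalizing z with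
  | _ n ih =>
    intro a b hz hab hua ja la hub jb lb
    subst hn
    have huz : u ≠ z := by
      rintro rfl
      rcases hua.len with h | h
      · rw [h] at la; omega
      · omega
    obtain ⟨m, hm⟩ := hZ z hz.1 huz hz.2
    have hzz : Ic cs u z z := ⟨hz.1, Bru.rf z⟩
    have ha : Ic cs u z a := ⟨hua, ja.symm.bru6 la⟩
    have hb : Ic cs u z b := ⟨hub, jb.symm.bru6 lb⟩
    by_cases h1 : m z = a
    · refine ⟨m b, (hm.maps b hb).1, (hm.maps b hb).2, ?_, ?_, sm_jn hC hm hb⟩
      · intro h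
        apply hab
        rw [← h1, ← h, hm.invol b hb]
      · have := hE u z m hm z b hzz hb jb
        rwa [h1] at this
    by_cases h2 : m z = b
    · refine ⟨m a, (hm.maps a ha).1, (hm.maps a ha).2, ?_, sm_jn hC hm ha, ?_⟩
      · intro h
        apply hab
        rw [← h2, ← h, hm.invol a ha]
      · have := hE u z m hm z a hzz ha ja
        rwa [h2] at this
    obtain ⟨j1, l1, u1⟩ := sm_low hE hC hm hz.1 hua ja la h1
    obtain ⟨j2, l2, u2⟩ := sm_low hE hC hm hz.1 hub jb lb h2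
    have hmz := hm.maps z hzz
    have htop := sm_top hC hm hz.1
    have hne : m a ≠ m b := by
      intro h
      apply hab
      rw [← hm.invol a ha, h, hm.invol b hb]
    obtain ⟨n, un, nz, nne, jn1, jn2⟩ := ih (cs.length (m z)) (by omega) (m z) rfl (m a) (m b)
      ⟨hmz.1, hmz.2.tr hz.2⟩ hne u1 j1 l1 u2 j2 l2
    have hn : Ic cs u z n := ⟨un, nz.tr hmz.2⟩
    refine ⟨m n, (hm.maps n hn).1, (hm.maps n hn).2, ?_, ?_, ?_⟩
    · intro h
      apply nne
      rw [← hm.invol n hn, h]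
    · have := hE u z m hm (m a) n (hm.maps a ha) hn jn1
      rwa [hm.invol a ha] at this
    · have := hE u z m hm (m b) n (hm.maps b hb) hn jn2
      rwa [hm.invol b hb] at this

end sm

/-! ### rules O and M -/

section om

/-- the case analysis of the common neighbours of `z T_b` and `z T_c` -/
theorem common (hCN : CNStmt G) {z n : W} {b c : L} (hb : R.Q b b = 2) (pb : R.P b)
    (hc : R.Q c c = 2) (pc : R.P c) (hbc : b ≠ c) (j1 : G.Jn (z * G.T b) n)
    (j2 : G.Jn (z * G.T c) n) :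
    n = z ∨ n = z * G.T b * G.T c ∨
    ∃ x, R.Q x x = 2 ∧ R.P x ∧ n = z * G.T b * G.T x ∧
      ((R.Q b x = -1 ∧ c = b + x) ∨ (R.Q b x = 1 ∧ c = b - x) ∨ (R.Q b x = 1 ∧ c = x - b)) := by
  obtain ⟨x, hx, px, rfl⟩ := j1
  obtain ⟨y, hy, py, e⟩ := j2
  by_cases h : b = x
  · left
    rw [← h, G.TT6 z hb]
  right
  have e' : G.T b * G.T x = G.T c * G.T y := by
    rw [mul_assoc, mul_assoc] at e
    exact mul_left_cancel e
  rcases hCN b x c y hb pb hx px hc pc hy py h e' with h1 | h1 | h1 | h1 | h1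
  · exact absurd h1.symm hbc
  · left
    rw [h1]
  · right
    exact ⟨x, hx, px, rfl, Or.inl h1⟩
  · right
    exact ⟨x, hx, px, rfl, Or.inr (Or.inl h1)⟩
  · right
    exact ⟨x, hx, px, rfl, Or.inr (Or.inr h1)⟩

theorem ruleO_of (hR : R2Stmt G) (hCN : CNStmt G) {u w : W} (hZ : Zircon cs u w) :
    ∀ z b c, Ic cs u w z → R.Q b b = 2 → R.P b → R.P (-(G.ρ z b)) → Bru cs u (z * G.T b) →
    R.Q c c = 2 → R.P c → R.P (-(G.ρ z c)) → Bru cs u (z * G.T c) → R.Q b c = 0 →
    Bru cs u (z * G.T b * G.T c) := by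
  intro z b c hz hb pb nb ub hc pc nc uc h0
  have hbc : b ≠ c := by
    rintro rfl
    omega
  have hne := G.T_ne z hb pb hc pc hbc
  obtain ⟨n, un, nz, nne, j1, j2⟩ := hR u w hZ z (z * G.T b) (z * G.T c) hz hne ub
    ⟨b, hb, pb, rfl⟩ (G.gt z b hb pb nb) uc ⟨c, hc, pc, rfl⟩ (G.gt z c hc pc nc)
  rcases common hCN hb pb hc pc hbc j1 j2 with h | h | ⟨x, hx, px, hn, h | h | h⟩
  · exact absurd h nne
  · exact h ▸ un
  · exfalso
    rw [h.2, R.Q_addr, hb, h.1] at h0
    omega
  · exfalso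
    rw [h.2, R.Q_subr, hb, h.1] at h0
    omega
  · exfalso
    rw [h.2, R.Q_subr, hb, h.1] at h0
    omega

theorem ruleM_of (hR : R2Stmt G) (hCN : CNStmt G) {u w : W} (hZ : Zircon cs u w) :
    ∀ z b c, Ic cs u w z → R.Q b b = 2 → R.P b → R.P (-(G.ρ z b)) → Bru cs u (z * G.T b) →
    R.Q c c = 2 → R.P c → R.P (-(G.ρ z c)) → Bru cs u (z * G.T c) → R.Q b c = -1 →
    Bru cs u (z * G.T b * G.T c) ∨ Bru cs u (z * G.T c * G.T b) := by
  intro z b c hz hb pb nb ub hc pc nc uc h0
  have hbc : b ≠ c := by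
    rintro rfl
    omega
  have hne := G.T_ne z hb pb hc pc hbc
  obtain ⟨n, un, nz, nne, j1, j2⟩ := hR u w hZ z (z * G.T b) (z * G.T c) hz hne ub
    ⟨b, hb, pb, rfl⟩ (G.gt z b hb pb nb) uc ⟨c, hc, pc, rfl⟩ (G.gt z c hc pc nc)
  rcases common hCN hb pb hc pc hbc j1 j2 with h | h | ⟨x, hx, px, hn, h | h | h⟩
  · exact absurd h nne
  · left
    exact h ▸ un
  · exfalso
    rw [h.2, R.Q_addr, hb, h.1] at h0
    omega
  · exfalso
    rw [h.2, R.Q_subr, hb, h.1] at h0
    omega
  · right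
    have hx' : x = b + c := by rw [h.2]; abel
    have key : G.T b * G.T x = G.T c * G.T b := by
      apply G.inj
      rw [map_mul, map_mul, G.ρT b hb, G.ρT x hx, G.ρT c hc, R.conj hb, r_apply, R.Q_comm c b, h0,
        neg_one_smul, sub_neg_eq_add, hx', add_comm c b]
    rw [mul_assoc, ← key, ← mul_assoc, ← hn]
    exact un

end om

/-! ### rule L -/

section rl

/-- common neighbours of `z T_b` and `z T_{b+i}` -/
theorem common3 (hCN : CNStmt G) {z n : W} {b i : L} (hb : R.Q b b = 2) (pb : R.P b)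
    (hi : R.Q i i = 2) (pi : R.P i) (qbi : R.Q b i = -1) (hbi : R.Q (b + i) (b + i) = 2)
    (pbi : R.P (b + i)) (j1 : G.Jn (z * G.T b) n) (j2 : G.Jn (z * G.T (b + i)) n) :
    n = z ∨ n = z * G.T b * G.T i ∨ n = z * G.T i * G.T b := by
  have hne : b ≠ b + i := by
    intro h
    have h1 : i = 0 := by
      have h2 : b + 0 = b + i := by rw [add_zero]; exact h
      exact (add_left_cancel h2).symm
    exact R.P_ne pi h1
  rcases common hCN hb pb hbi pbi hne j1 j2 with h | h | ⟨x, hx, px, hn, h | h | h⟩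
  · exact Or.inl h
  · right; right
    have key : G.T b * G.T (b + i) = G.T i * G.T b := by
      apply G.inj
      rw [map_mul, map_mul, G.ρT b hb, G.ρT _ hbi, G.ρT i hi, R.conj hb, r_apply, R.Q_comm i b, qbi,
        neg_one_smul, sub_neg_eq_add, add_comm i b]
    rw [h, mul_assoc, key, ← mul_assoc]
  · right; left
    have : i = x := add_left_cancel h.2
    rw [this]
    exact hn
  · exfalso
    have h1 : -i = x := by
      have h2 : x = b - (b + i) := by rw [h.2]; abel
      rw [h2]; abel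
    exact R.P_neg pi (h1 ▸ px)
  · exfalso
    have h1 : x = b + b + i := by
      have h2 : x = (x - b) + b := by abel
      rw [h2, ← h.2]; abel
    have h3 := h.1
    rw [h1, R.Q_addr, R.Q_addr, hb, qbi] at h3
    omega

/-- the transfer argument -/
theorem star (hE : LemmaEStmt G) (hC : CovStmt G) (hLf : RulLiftStmt cs) {u z : W} {m : W → W}
    (hm : SM cs u z m) {a a' o z' : W} (ha : Ic cs u z a) (ha' : Ic cs u z a') (haa : a ≠ a')
    (hcn : ∀ n, G.Jn a n → G.Jn a' n → n = z ∨ n = o ∨ n = z')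
    (j3 : G.Jn a z') (l3 : cs.length a < cs.length z')
    (j4 : G.Jn a' z') (l4 : cs.length a' < cs.length z')
    {n : W} (hn : Ic cs u z n) (hne : m n ≠ z) (j1 : G.Jn (m a) n) (l1 : cs.length n < cs.length (m a))
    (j2 : G.Jn (m a') n) (l2 : cs.length n < cs.length (m a')) : Bru cs u o := by
  have hn' := hm.maps n hn
  have j5 : G.Jn a (m n) := by
    have := hE u z m hm (m a) n (hm.maps a ha) hn j1
    rwa [hm.invol a ha] at this
  have j6 : G.Jn a' (m n) := by
    have := hE u z m hm (m a') n (hm.maps a' ha') hn j2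
    rwa [hm.invol a' ha'] at this
  rcases hcn _ j5 j6 with h | h | h
  · exact absurd h hne
  · exact h ▸ hn'.1
  · exfalso
    have hz' : Ic cs u z z' := h ▸ hn'
    have hmz : m z' = n := by rw [← h, hm.invol n hn]
    have up : ∀ c, Ic cs u z c → G.Jn c z' → cs.length c < cs.length z' →
        cs.length n < cs.length (m c) → c = n := by
      intro c hc jc lc lm
      have hb := jc.bru6 lc
      have hL := hLf u z m hm c z' hc hz' hb
      rw [hmz] at hL
      rcases hm.cov c hc with h1 | h1 <;> rcases hm.cov z' hz' with h2 | h2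
      · have h3 := cov_len hC h1
        have h4 := cov_len hC h2
        rw [hmz] at h4
        have h5 := hL.2.2 (by omega) (by omega)
        rcases h5.len with h6 | h6
        · rw [h6] at lm; omega
        · omega
      · have h3 := cov_len hC h1
        have h4 := cov_len hC h2
        rw [hmz] at h4
        have h5 := hL.1 (by omega) (by omega)
        exact h5.eq_of_len (by omega)
      · have h3 := cov_len hC h1
        have h4 := cov_len hC h2
        rw [hmz] at h4
        omega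
      · have h3 := cov_len hC h1
        have h4 := cov_len hC h2
        rw [hmz] at h4
        have h5 := hL.2.1 (by omega) (by omega)
        rcases h5.len with h6 | h6
        · rw [h6] at lm; omega
        · omega
    have e1 := up a ha j3 l3 l1
    have e2 := up a' ha' j4 l4 l2
    exact haa (e1.trans e2.symm)

/-- the case `b1 = b2 + j` -/
theorem caseL (G : Geo cs R) {u z c o z' : W} {m : W → W} (hcz : Bru cs c z) {b1 b2 j : L}
    (h1 : R.Q b1 b1 = 2) (p1 : R.P b1) (n1 : R.P (-(G.ρ c b1)))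
    (h2 : R.Q b2 b2 = 2) (p2 : R.P b2) (n2 : R.P (-(G.ρ c b2)))
    (hj : R.Q j j = 2) (pj : R.P j) (e : b1 = b2 + j) (up : Bru cs u (c * G.T b1))
    (hL : R.P (G.ρ c j) → Bru cs u (c * G.T b2 * G.T j))
    (H1 : ∀ n, Bru cs u n → G.Jn (c * G.T b1) n → cs.length n < cs.length (c * G.T b1) →
      G.Jn (c * G.T b2) n → cs.length n < cs.length (c * G.T b2) → Bru cs u o)
    (hinv : ∀ n, Ic cs u z n → m (m n) = n) (hmaps : ∀ n, Ic cs u z n → Ic cs u z (m n))
    (hmz : m z = c)
    (H2 : ∀ n, Ic cs u z n → G.Jn (c * G.T b1) n → G.Jn (c * G.T b2) n →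
      m n = z ∨ m n = o ∨ m n = z') : Bru cs u o := by
  have q2j : R.Q b2 j = -1 := by
    have h3 := h1
    rw [e] at h3
    simp only [R.Q_add, R.Q_addr, h2, hj, R.Q_comm j b2] at h3
    omega
  have q12 : R.Q b1 b2 = 1 := by
    rw [e, R.Q_add, h2, R.Q_comm j b2, q2j]; norm_num
  have qj1 : R.Q j b1 = 1 := by
    rw [e, R.Q_addr, hj, R.Q_comm j b2, q2j]; norm_num
  have hb2j : R.Q (b2 + j) (b2 + j) = 2 := by rw [← e]; exact h1
  -- word identities
  have w1 : c * G.T b1 * G.T b2 = c * G.T b2 * G.T j := by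
    rw [mul_assoc, mul_assoc]
    congr 1
    apply G.inj
    rw [map_mul, map_mul, G.ρT b1 h1, G.ρT b2 h2, G.ρT j hj, e]
    exact (R.swm h2 q2j).symm
  have w2 : c * G.T b1 * G.T j = c * G.T b2 * G.T b1 := by
    rw [mul_assoc, mul_assoc]
    congr 1
    apply G.inj
    rw [map_mul, map_mul, G.ρT b1 h1, G.ρT b2 h2, G.ρT j hj, e]
    have q : R.Q j b2 = -1 := by rw [R.Q_comm, q2j]
    rw [add_comm b2 j, ← R.swm hj q, R.swm' h2 q]
  -- signs
  have s1 : G.ρ (c * G.T b2) j = G.ρ c b1 := by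
    rw [G.ρmul c h2, R.Q_comm j b2, q2j, neg_one_smul, sub_neg_eq_add, add_comm j b2, ← e]
  have s2 : G.ρ (c * G.T b1) b2 = -(G.ρ c j) := by
    rw [G.ρmul c h1, R.Q_comm b2 b1, q12, one_smul, ← map_neg]
    congr 1
    rw [e]; abel
  have s3 : G.ρ (c * G.T b1) j = -(G.ρ c b2) := by
    rw [G.ρmul c h1, qj1, one_smul, ← map_neg]
    congr 1
    rw [e]; abel
  have s4 : G.ρ (c * G.T b2) b1 = G.ρ c j := by
    rw [G.ρmul c h2, q12, one_smul]
    congr 1
    rw [e]; abel
  rcases G.root c hj with hp | hn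
  · apply H1 (c * G.T b2 * G.T j) (hL hp)
    · exact ⟨b2, h2, p2, w1.symm⟩
    · rw [← w1]
      apply G.gt _ b2 h2 p2
      rw [s2, neg_neg]
      exact hp
    · exact ⟨j, hj, pj, rfl⟩
    · apply G.gt _ j hj pj
      rw [s1]
      exact n1
  · -- `c T_{b1}` is the minimum of the coset
    have lq : cs.length (c * G.T b2) < cs.length c := G.gt c b2 h2 p2 n2
    have bq : Bru cs (c * G.T b2) c := by
      have jq0 : G.Jn c (c * G.T b2) := ⟨b2, h2, p2, rfl⟩
      have jq : G.Jn (c * G.T b2) c := jq0.symm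
      exact jq.bru6 lq
    have l2 : cs.length (c * G.T b1) < cs.length (c * G.T b1 * G.T b2) := by
      apply G.lt _ b2 h2 p2
      rw [s2]
      exact hn
    have l3 : cs.length (c * G.T b1) < cs.length (c * G.T b1 * G.T j) := by
      apply G.lt _ j hj pj
      rw [s3]
      exact n2
    have l4 : cs.length (c * G.T b2 * G.T j) < cs.length (c * G.T b2) := by
      apply G.gt _ j hj pj
      rw [s1]
      exact n1
    have l5 : cs.length (c * G.T b2 * G.T b1) < cs.length (c * G.T b2) := by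
      apply G.gt _ b1 h1 p1
      rw [s4]
      exact hn
    have j2 : G.Jn (c * G.T b1) (c * G.T b1 * G.T b2) := ⟨b2, h2, p2, rfl⟩
    have j3 : G.Jn (c * G.T b1) (c * G.T b1 * G.T j) := ⟨j, hj, pj, rfl⟩
    have j4 : G.Jn (c * G.T b2) (c * G.T b1 * G.T b2) := ⟨j, hj, pj, w1⟩
    have j5 : G.Jn (c * G.T b2) (c * G.T b1 * G.T j) := ⟨b1, h1, p1, w2⟩
    have i2 : Ic cs u z (c * G.T b1 * G.T b2) :=
      ⟨up.tr (j2.bru6 l2), ((j4.symm.bru6 (by rw [w1]; exact l4)).tr bq).tr hcz⟩
    have i3 : Ic cs u z (c * G.T b1 * G.T j) :=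
      ⟨up.tr (j3.bru6 l3), ((j5.symm.bru6 (by rw [w2]; exact l5)).tr bq).tr hcz⟩
    have hbj : b2 ≠ j := by
      rintro rfl
      omega
    have ne23 : c * G.T b1 * G.T b2 ≠ c * G.T b1 * G.T j := G.T_ne _ h2 p2 hj pj hbj
    have nz2 : m (c * G.T b1 * G.T b2) ≠ z := by
      intro h
      have h3 := hinv _ i2
      rw [h, hmz] at h3
      rw [w1] at h3
      rw [← h3] at l4
      omega
    have nz3 : m (c * G.T b1 * G.T j) ≠ z := by
      intro h
      have h3 := hinv _ i3
      rw [h, hmz] at h3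
      rw [w2] at h3
      rw [← h3] at l5
      omega
    rcases H2 _ i2 j2 j4 with h | h | h
    · exact absurd h nz2
    · exact h ▸ (hmaps _ i2).1
    · rcases H2 _ i3 j3 j5 with h' | h' | h'
      · exact absurd h' nz3
      · exact h' ▸ (hmaps _ i3).1
      · exfalso
        apply ne23
        rw [← hinv _ i2, h, ← h', hinv _ i3]

theorem ruleL_of (hE : LemmaEStmt G) (hC : CovStmt G) (hCN : CNStmt G) (hLf : RulLiftStmt cs)
    {u w : W} (hZ : Zircon cs u w) :
    ∀ z b i, Ic cs u w z → R.Q b b = 2 → R.P b → R.P (-(G.ρ z b)) → Bru cs u (z * G.T b) →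
    R.Q i i = 2 → R.P i → R.P (G.ρ z i) → R.Q (b + i) (b + i) = 2 → R.P (-(G.ρ z (b + i))) →
    Bru cs u (z * G.T (b + i)) → Bru cs u (z * G.T b * G.T i) := by
  have hR := r2_stmt hE hC
  intro z
  induction hn : cs.length z using Nat.strong_induction_on generalizing z with
  | _ n ih =>
  intro b i hz hb pb nb ub hi pi ppi hbi nbi ubi
  subst hn
  have pbi : R.P (b + i) := R.P_add pb pi
  have qbi : R.Q b i = -1 := by
    have h3 := hbi
    simp only [R.Q_add, R.Q_addr, hb, hi, R.Q_comm i b] at h3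
    omega
  have hne : b ≠ b + i := by
    intro h
    have h1 : i = 0 := by
      have h2 : b + 0 = b + i := by rw [add_zero]; exact h
      exact (add_left_cancel h2).symm
    exact R.P_ne pi h1
  have ja : G.Jn z (z * G.T b) := ⟨b, hb, pb, rfl⟩
  have ja' : G.Jn z (z * G.T (b + i)) := ⟨b + i, hbi, pbi, rfl⟩
  have la := G.gt z b hb pb nb
  have la' := G.gt z (b + i) hbi pbi nbi
  have haa : z * G.T b ≠ z * G.T (b + i) := G.T_ne z hb pb hbi pbi hne
  have qib : R.Q i b = -1 := by rw [R.Q_comm, qbi]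
  have w1 : z * G.T i * G.T b = z * G.T b * G.T (b + i) := by
    rw [mul_assoc, mul_assoc]
    congr 1
    apply G.inj
    rw [map_mul, map_mul, G.ρT b hb, G.ρT i hi, G.ρT _ hbi, R.swm' hb qib, add_comm i b]
  have w2 : z * G.T i * G.T b = z * G.T (b + i) * G.T i := by
    rw [mul_assoc, mul_assoc]
    congr 1
    apply G.inj
    rw [map_mul, map_mul, G.ρT b hb, G.ρT i hi, G.ρT _ hbi, R.swm hi qib, add_comm i b]
  have j3 : G.Jn (z * G.T b) (z * G.T i * G.T b) := ⟨b + i, hbi, pbi, w1⟩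
  have j4 : G.Jn (z * G.T (b + i)) (z * G.T i * G.T b) := ⟨i, hi, pi, w2⟩
  have l3 : cs.length (z * G.T b) < cs.length (z * G.T i * G.T b) := by
    rw [w1]
    apply G.lt _ _ hbi pbi
    rw [G.ρmul z hb, R.Q_add, hb, qib]
    have : b + i - (2 + -1 : ℤ) • b = i := by
      norm_num
    rw [this]
    exact ppi
  have l4 : cs.length (z * G.T (b + i)) < cs.length (z * G.T i * G.T b) := by
    rw [w2]
    apply G.lt _ _ hi pi
    rw [G.ρmul z hbi, R.Q_addr, hi, qib]
    have : i - (-1 + 2 : ℤ) • (b + i) = -b := by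
      norm_num
    rw [this, map_neg]
    exact nb
  have hcn : ∀ n, G.Jn (z * G.T b) n → G.Jn (z * G.T (b + i)) n →
      n = z ∨ n = z * G.T b * G.T i ∨ n = z * G.T i * G.T b :=
    fun n h1 h2 => common3 hCN hb pb hi pi qbi hbi pbi h1 h2
  generalize z * G.T i * G.T b = z' at *
  generalize z * G.T b * G.T i = o at *
  generalize z * G.T b = a at *
  generalize z * G.T (b + i) = a' at *
  have huz : u ≠ z := by
    rintro rfl
    rcases ub.len with h | h
    · rw [h] at la; omega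
    · omega
  obtain ⟨m, hm⟩ := hZ z hz.1 huz hz.2
  have hzz : Ic cs u z z := ⟨hz.1, Bru.rf z⟩
  have ha : Ic cs u z a := ⟨ub, ja.symm.bru6 la⟩
  have ha' : Ic cs u z a' := ⟨ubi, ja'.symm.bru6 la'⟩
  have htop := sm_top hC hm hz.1
  by_cases h1 : m z = a
  · have k1 : G.Jn a (m a') := by
      have := hE u z m hm z a' hzz ha' ja'
      rwa [h1] at this
    have hma' := hm.maps a' ha'
    rcases hcn _ k1 (sm_jn hC hm ha') with h | h | h
    · exfalso
      apply haa
      rw [← h1, ← h, hm.invol a' ha']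
    · exact h ▸ hma'.1
    · exfalso
      rw [h] at hma'
      rw [h1] at htop
      rcases hma'.2.len with h2 | h2
      · apply haa
        rw [← h1, ← h2, ← h, hm.invol a' ha']
      · omega
  by_cases h2 : m z = a'
  · have k1 : G.Jn a' (m a) := by
      have := hE u z m hm z a hzz ha ja
      rwa [h2] at this
    have hma := hm.maps a ha
    rcases hcn _ (sm_jn hC hm ha) k1 with h | h | h
    · exfalso
      apply haa
      rw [← h2, ← h, hm.invol a ha]
    · exact h ▸ hma.1
    · exfalso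
      rw [h] at hma
      rw [h2] at htop
      rcases hma.2.len with h3 | h3
      · apply haa
        rw [← h2, ← h3, ← h, hm.invol a ha]
      · omega
  obtain ⟨k1, m1, u1⟩ := sm_low hE hC hm hz.1 ub ja la h1
  obtain ⟨k2, m2, u2⟩ := sm_low hE hC hm hz.1 ubi ja' la' h2
  have hmz := hm.maps z hzz
  have hcw : Ic cs u w (m z) := ⟨hmz.1, hmz.2.tr hz.2⟩
  have hmne : m a ≠ m a' := by
    intro h
    apply haa
    rw [← hm.invol a ha, h, hm.invol a' ha']
  -- the transfer statements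
  have H1 : ∀ n, Bru cs u n → G.Jn (m a) n → cs.length n < cs.length (m a) →
      G.Jn (m a') n → cs.length n < cs.length (m a') → Bru cs u o := by
    intro n un x1 y1 x2 y2
    have hn : Ic cs u z n := ⟨un, (x1.symm.bru6 y1).tr (hm.maps a ha).2⟩
    refine star hE hC hLf hm ha ha' haa hcn j3 l3 j4 l4 hn ?_ x1 y1 x2 y2
    intro h
    have h3 := hm.invol n hn
    rw [h] at h3
    rw [← h3] at y1
    omega
  have H2 : ∀ n, Ic cs u z n → G.Jn (m a) n → G.Jn (m a') n →
      m n = z ∨ m n = o ∨ m n = z' := by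
    intro n hn x1 x2
    apply hcn
    · have := hE u z m hm (m a) n (hm.maps a ha) hn x1
      rwa [hm.invol a ha] at this
    · have := hE u z m hm (m a') n (hm.maps a' ha') hn x2
      rwa [hm.invol a' ha'] at this
  obtain ⟨b1, hb1, pb1, e1⟩ := k1
  obtain ⟨b2, hb2, pb2, e2⟩ := k2
  have nb1 : R.P (-(G.ρ (m z) b1)) := G.neg_of_lt _ hb1 pb1 (by rw [← e1]; exact m1)
  have nb2 : R.P (-(G.ρ (m z) b2)) := G.neg_of_lt _ hb2 pb2 (by rw [← e2]; exact m2)
  have hbb : b1 ≠ b2 := by
    rintro rfl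
    exact hmne (e1.trans e2.symm)
  rw [e1, e2] at H1 H2
  rw [e1] at u1
  rw [e2] at u2
  have mc := hm.invol
  have mm := hm.maps
  generalize hc : m z = c at *
  rcases R.Q_cases' hb1 hb2 pb1 pb2 hbb with q | q | q
  · -- rule M
    have low : ∀ x y, R.Q x x = 2 → R.P x → R.P (-(G.ρ c x)) → R.Q y y = 2 → R.P y →
        R.P (-(G.ρ c y)) → R.Q x y = -1 →
        G.Jn (c * G.T x) (c * G.T x * G.T y) ∧
        cs.length (c * G.T x * G.T y) < cs.length (c * G.T x) ∧
        G.Jn (c * G.T y) (c * G.T x * G.T y) ∧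
        cs.length (c * G.T x * G.T y) < cs.length (c * G.T y) := by
      intro x y hx px nx hy py ny qxy
      have hxy : R.Q (x + y) (x + y) = 2 := by
        simp only [R.Q_add, R.Q_addr, hx, hy, R.Q_comm y x, qxy]; norm_num
      have w : c * G.T x * G.T y = c * G.T y * G.T (x + y) := by
        rw [mul_assoc, mul_assoc]
        congr 1
        apply G.inj
        rw [map_mul, map_mul, G.ρT x hx, G.ρT y hy, G.ρT _ hxy, R.swm' hy qxy]
      refine ⟨⟨y, hy, py, rfl⟩, ?_, ⟨x + y, hxy, R.P_add px py, w⟩, ?_⟩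
      · apply G.gt _ y hy py
        rw [G.ρmul c hx, R.Q_comm y x, qxy, neg_one_smul, sub_neg_eq_add, map_add, neg_add]
        exact R.P_add ny nx
      · rw [w]
        apply G.gt _ _ hxy (R.P_add px py)
        rw [G.ρmul c hy, R.Q_add, hy, qxy]
        have : x + y - (-1 + 2 : ℤ) • y = x := by norm_num
        rw [this]
        exact nx
    rcases ruleM_of hR hCN hZ c b1 b2 hcw hb1 pb1 nb1 u1 hb2 pb2 nb2 u2 q with h | h
    · obtain ⟨x1, x2, x3, x4⟩ := low b1 b2 hb1 pb1 nb1 hb2 pb2 nb2 q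
      exact H1 _ h x1 x2 x3 x4
    · obtain ⟨x1, x2, x3, x4⟩ := low b2 b1 hb2 pb2 nb2 hb1 pb1 nb1 (by rw [R.Q_comm, q])
      exact H1 _ h x3 x4 x1 x2
  · -- rule O
    have h := ruleO_of hR hCN hZ c b1 b2 hcw hb1 pb1 nb1 u1 hb2 pb2 nb2 u2 q
    have w : c * G.T b1 * G.T b2 = c * G.T b2 * G.T b1 := by
      rw [mul_assoc, mul_assoc]
      congr 1
      apply G.inj
      rw [map_mul, map_mul, G.ρT b1 hb1, G.ρT b2 hb2, R.sw0 q]
    refine H1 _ h ⟨b2, hb2, pb2, rfl⟩ ?_ ⟨b1, hb1, pb1, w⟩ ?_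
    · apply G.gt _ b2 hb2 pb2
      rw [G.ρmul c hb1, R.Q_comm b2 b1, q, zero_smul, sub_zero]
      exact nb2
    · rw [w]
      apply G.gt _ b1 hb1 pb1
      rw [G.ρmul c hb2, q, zero_smul, sub_zero]
      exact nb1
  · -- the two cases `b1 = b2 + j`, `b2 = b1 + j`
    have hd : R.Q (b1 - b2) (b1 - b2) = 2 := by
      simp only [R.Q_sub, R.Q_subr, hb1, hb2, R.Q_comm b2 b1, q]; norm_num
    rcases R.P_root _ hd with hp | hp
    · have e : b1 = b2 + (b1 - b2) := by abel
      refine caseL G (m := m) (j := b1 - b2) hmz.2 hb1 pb1 nb1 hb2 pb2 nb2 hd hp e u1 ?_ H1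
        mc mm hc H2
      intro hpos
      refine ih (cs.length c) (by omega) c rfl b2 (b1 - b2) hcw hb2 pb2 nb2 u2 hd hp hpos ?_ ?_ ?_
      · rw [← e]; exact hb1
      · rw [← e]; exact nb1
      · rw [← e]; exact u1
    · have e' : -(b1 - b2) = b2 - b1 := by abel
      rw [e'] at hp
      have hd' : R.Q (b2 - b1) (b2 - b1) = 2 := by
        simp only [R.Q_sub, R.Q_subr, hb1, hb2, R.Q_comm b2 b1, q]; norm_num
      have e : b2 = b1 + (b2 - b1) := by abel
      refine caseL G (m := m) (j := b2 - b1) hmz.2 hb2 pb2 nb2 hb1 pb1 nb1 hd' hp e u2 ?_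
        (fun n x0 x1 x2 x3 x4 => H1 n x0 x3 x4 x1 x2) mc mm hc
        (fun n x0 x1 x2 => H2 n x0 x2 x1)
      intro hpos
      refine ih (cs.length c) (by omega) c rfl b1 (b2 - b1) hcw hb1 pb1 nb1 u1 hd' hp hpos ?_ ?_ ?_
      · rw [← e]; exact hb2
      · rw [← e]; exact nb2
      · rw [← e]; exact u2

end rl

/-- all rules -/
theorem wRules_of (hE : LemmaEStmt G) (hC : CovStmt G) (hCN : CNStmt G)
    {u w : W} (hZ : Zircon cs u w) : WRules G u w where
  O := ruleO_of (r2_stmt hE hC) hCN hZ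
  M := ruleM_of (r2_stmt hE hC) hCN hZ
  L := ruleL_of hE hC hCN rul_lift_stmt hZ

end RUL

end rul

end Pool.Agent.H11.ZDE
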